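import Pool.Agent.H16.CS.Targets

/-!
# Assembly
-/

set_option autoImplicit false

open Polynomial

namespace Pool.Agent.H16.CS

section basic

variable {R : Type} [Ring R] [Algebra ℚ R] {num : R →ₗ[ℚ] ℚ} {d : ℕ} {K : Type} [Field K] [CharZero K]
variable (ρ : Realisation R num d K)

/-- the even degrees -/
def evs (d : ℕ) : Finset (Fin (2 * d + 1)) := Finset.univ.filter (fun i : Fin (2 * d + 1) => Even (i : ℕ))

/-- the odd degrees -/
def ods (d : ℕ) : Finset (Fin (2 * d + 1)) := Finset.univ.filter (fun i : Fin (2 * d + 1) => ¬ Even (i : ℕ))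

/-- the projection to one cohomology group -/
def actI (i : Fin (2 * d + 1)) : R →+* Module.End K (ρ.H i) :=
  (Pi.evalRingHom (fun i => Module.End K (ρ.H i)) i).comp ρ.act

theorem actI_apply (i : Fin (2 * d + 1)) (f : R) : actI ρ i f = ρ.act f i := rfl

theorem trace_split (f : R) : ((num f : ℚ) : K) =
    ∑ i ∈ evs d, LinearMap.trace K (ρ.H i) (ρ.act f i) -
      ∑ i ∈ ods d, LinearMap.trace K (ρ.H i) (ρ.act f i) := by
  rw [ρ.trace_formula, ← Finset.sum_filter_add_sum_filter_not Finset.univ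
    (fun i : Fin (2 * d + 1) => Even (i : ℕ)), sub_eq_add_neg, ← Finset.sum_neg_distrib]
  congr 1
  · refine Finset.sum_congr rfl fun i hi => ?_
    rw [evs, Finset.mem_filter] at hi
    rw [hi.2.neg_one_pow, one_mul]
  · refine Finset.sum_congr rfl fun i hi => ?_
    rw [ods, Finset.mem_filter, Nat.not_even_iff_odd] at hi
    rw [hi.2.neg_one_pow, neg_one_mul]

theorem num_eq_zero_of_act {x : R} (h : ρ.act x = 0) : num x = 0 := by
  have h1 := trace_split ρ x
  rw [h] at h1
  simp only [Pi.zero_apply, map_zero, Finset.sum_const_zero, sub_zero] at h1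
  exact_mod_cast h1

theorem num_one : (num 1 : ℚ) = ρ.bev - ρ.bodd := by
  have h1 := trace_split ρ 1
  rw [map_one ρ.act] at h1
  simp only [Pi.one_apply, LinearMap.trace_one] at h1
  have h2 : ((num 1 : ℚ) : K) = ((ρ.bev - ρ.bodd : ℚ) : K) := by
    rw [h1, Realisation.bev, Realisation.bodd, evs, ods]
    push_cast
    rfl
  exact_mod_cast h2

theorem num_of_act {f : R} (h : ρ.act f = ρ.pie) : (num f : ℚ) = ρ.bev := by
  have h1 := trace_split ρ f
  rw [h] at h1
  have h3 : ∑ i ∈ evs d, LinearMap.trace K (ρ.H i) (ρ.pie i) =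
      ∑ i ∈ evs d, (Module.finrank K (ρ.H i) : K) := by
    refine Finset.sum_congr rfl fun i hi => ?_
    rw [evs, Finset.mem_filter] at hi
    rw [Realisation.pie, if_pos hi.2, LinearMap.trace_one]
  have h4 : ∑ i ∈ ods d, LinearMap.trace K (ρ.H i) (ρ.pie i) = 0 := by
    refine Finset.sum_eq_zero fun i hi => ?_
    rw [ods, Finset.mem_filter] at hi
    rw [Realisation.pie, if_neg hi.2, map_zero]
  rw [h3, h4, sub_zero] at h1
  have h2 : ((num f : ℚ) : K) = ((ρ.bev : ℚ) : K) := by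
    rw [h1, Realisation.bev, evs]
    push_cast
    rfl
  exact_mod_cast h2

theorem idem_of_act {f : R} (h : ρ.act f = ρ.pie) : NumIdem num f := by
  intro g
  apply num_eq_zero_of_act ρ
  rw [map_mul, map_sub, map_mul, h]
  have h1 : ρ.pie * ρ.pie = ρ.pie := by
    funext i
    rw [Pi.mul_apply, Realisation.pie]
    split_ifs <;> simp
  rw [h1, sub_self, zero_mul]

theorem idem_pow {e : R} (h : NumIdem num e) (n : ℕ) (hn : 1 ≤ n) : num (e ^ n) = num e := by
  induction n, hn using Nat.le_induction with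
  | base => rw [pow_one]
  | succ n hn ih =>
    obtain ⟨m, rfl⟩ : ∃ m, n = m + 1 := ⟨n - 1, by omega⟩
    have h1 := h (e ^ m)
    rw [sub_mul, map_sub, sub_eq_zero] at h1
    rw [← ih]
    have h2 : e * e * e ^ m = e ^ (m + 1 + 1) := by
      rw [pow_succ' e (m + 1), pow_succ' e m, mul_assoc]
    have h3 : e * e ^ m = e ^ (m + 1) := (pow_succ' e m).symm
    rw [← h2, ← h3, h1]

theorem invol_of_idem {e : R} (h : NumIdem num e) : NumInvol num (2 * e - 1) := by
  intro g
  have h1 : ((2 * e - 1) * (2 * e - 1) - 1) * g = (4 : ℚ) • ((e * e - e) * g) := by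
    rw [show (4 : ℚ) • ((e * e - e) * g) = (4 : ℕ) • ((e * e - e) * g) from by
      rw [← Nat.cast_smul_eq_nsmul ℚ]; norm_num]
    noncomm_ring
  rw [h1, map_smul, h g, smul_zero]

theorem idem_of_invol {s : R} (h : NumInvol num s) : NumIdem num ((1 / 2 : ℚ) • (1 + s)) := by
  intro g
  have h1 : ((1 / 2 : ℚ) • (1 + s) * ((1 / 2 : ℚ) • (1 + s)) - (1 / 2 : ℚ) • (1 + s)) * g =
      (1 / 4 : ℚ) • ((s * s - 1) * g) := by
    rw [smul_mul_smul_comm, show (1 / 2 : ℚ) • (1 + s) = (1 / 4 : ℚ) • ((2 : ℚ) • (1 + s)) from by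
      rw [smul_smul]; norm_num, show (1 / 2 * (1 / 2) : ℚ) = 1 / 4 from by norm_num, ← smul_sub,
      smul_mul_assoc]
    congr 2
    rw [show (2 : ℚ) • (1 + s) = (2 : ℕ) • (1 + s) from by
      rw [← Nat.cast_smul_eq_nsmul ℚ]; norm_num]
    noncomm_ring
  rw [h1, map_smul, h g, smul_zero]

end basic

end Pool.Agent.H16.CS
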