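import Mathlib

/-!
# The sign conjecture C⁺ in an arbitrary Weil cohomology: definitions
-/

set_option autoImplicit false

open Polynomial

namespace Pool.Agent.H16.CS

/-- A realisation of the ring `R` of rational self-correspondences of a smooth proper variety `X` of
dimension `d` (cycles of codimension `d` on `X × X` with rational coefficients, modulo any adequate
equivalence relation finer than homological equivalence, with the composition of correspondences)
in a Weil cohomology with coefficients in a field `K` of characteristic zero. `num f` is the
intersection number of `f` with the diagonal. -/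
structure Realisation (R : Type) [Ring R] [Algebra ℚ R] (num : R →ₗ[ℚ] ℚ) (d : ℕ) (K : Type)
    [Field K] [CharZero K] where
  /-- the cohomology groups -/
  H : Fin (2 * d + 1) → Type
  [acg : ∀ i, AddCommGroup (H i)]
  [mod : ∀ i, Module K (H i)]
  [fin : ∀ i, FiniteDimensional K (H i)]
  /-- the action of the correspondences on the cohomology groups (the cycle class map, followed by the
  isomorphism of the cohomology of `X × X` in degree `2 d` with the product of the rings `End (H i)`) -/
  act : R →+* (∀ i, Module.End K (H i))
  /-- the Lefschetz trace formula -/
  trace_formula : ∀ f : R, ((num f : ℚ) : K) =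
    ∑ i : Fin (2 * d + 1), (-1 : K) ^ (i : ℕ) * LinearMap.trace K (H i) (act f i)

attribute [instance] Realisation.acg Realisation.mod Realisation.fin

section num

variable {R : Type} [Ring R] [Algebra ℚ R] (num : R →ₗ[ℚ] ℚ)

/-- `x` is numerically equivalent to zero. -/
def NumTrivial (x : R) : Prop := ∀ g : R, num (x * g) = 0

/-- `e` is idempotent up to numerical equivalence. -/
def NumIdem (e : R) : Prop := NumTrivial num (e * e - e)

/-- `s` is an involution up to numerical equivalence. -/
def NumInvol (s : R) : Prop := NumTrivial num (s * s - 1)

end num

namespace Realisation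

variable {R : Type} [Ring R] [Algebra ℚ R] {num : R →ₗ[ℚ] ℚ} {d : ℕ} {K : Type} [Field K] [CharZero K]
variable (ρ : Realisation R num d K)

/-- the dimension of the even cohomology -/
noncomputable def bev : ℕ := 
  ∑ i ∈ Finset.univ.filter (fun i : Fin (2 * d + 1) => Even (i : ℕ)), Module.finrank K (ρ.H i)

/-- the dimension of the odd cohomology -/
noncomputable def bodd : ℕ := 
  ∑ i ∈ Finset.univ.filter (fun i : Fin (2 * d + 1) => ¬ Even (i : ℕ)), Module.finrank K (ρ.H i)

/-- the even Künneth projector `π⁺`: the identity on the even cohomology, zero on the odd cohomology -/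
noncomputable def pie (i : Fin (2 * d + 1)) : Module.End K (ρ.H i) := if Even (i : ℕ) then 1 else 0

/-- The statement `C⁺`: the even Künneth projector is the class of an algebraic cycle with rational
coefficients. -/
def Cplus : Prop := ∃ f : R, ρ.act f = ρ.pie

/-- `C⁺` with coefficients in `K`. -/
def CplusK : Prop := ρ.pie ∈ Submodule.span K (Set.range ρ.act)

/-- Every `K`-subspace of the total cohomology which is stable under all algebraic self-correspondences is
the direct sum of its even part and its odd part. -/
def StableSplit : Prop := ∀ W : Submodule K (∀ i, ρ.H i),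
  (∀ f : R, ∀ x ∈ W, (fun i => ρ.act f i (x i)) ∈ W) → ∀ x ∈ W, (fun i => ρ.pie i (x i)) ∈ W

/-- The characteristic polynomial of `f` on the even cohomology. -/
noncomputable def chE (f : R) : K[X] :=
  ∏ i ∈ Finset.univ.filter (fun i : Fin (2 * d + 1) => Even (i : ℕ)), (ρ.act f i).charpoly

/-- The characteristic polynomial of `f` on the odd cohomology. -/
noncomputable def chO (f : R) : K[X] :=
  ∏ i ∈ Finset.univ.filter (fun i : Fin (2 * d + 1) => ¬ Even (i : ℕ)), (ρ.act f i).charpoly

end Realisation

end Pool.Agent.H16.CS
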