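import Pool.Agent.H16.CS.Asm

/-!
# Eigenvalues, COP and the key step
-/

set_option autoImplicit false
set_option linter.unusedSectionVars false

open Polynomial

namespace Pool.Agent.H16.CS

section eig

variable {R : Type} [Ring R] [Algebra ℚ R] {num : R →ₗ[ℚ] ℚ} {d : ℕ} {K : Type} [Field K] [CharZero K]
variable (ρ : Realisation R num d K) (Ω : Type) [Field Ω] [IsAlgClosed Ω] [Algebra K Ω]

/-- the eigenvalues on the even cohomology -/
noncomputable def eigE (f : R) : Multiset Ω := ∑ i ∈ evs d, eig Ω (ρ.act f i)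

/-- the eigenvalues on the odd cohomology -/
noncomputable def eigO (f : R) : Multiset Ω := ∑ i ∈ ods d, eig Ω (ρ.act f i)

theorem card_eig {V : Type} [AddCommGroup V] [Module K V] [FiniteDimensional K V]
    (f : Module.End K V) : (eig Ω f).card = Module.finrank K V := by
  rw [eig, ← (IsAlgClosed.splits _).natDegree_eq_card_roots,
    natDegree_map_eq_of_injective (algebraMap K Ω).injective, LinearMap.charpoly_natDegree]

theorem card_eigE (f : R) : (eigE ρ Ω f).card = ρ.bev := by
  rw [eigE, Multiset.card_sum, Realisation.bev, evs]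
  exact Finset.sum_congr rfl fun i _ => card_eig Ω _

theorem card_eigO (f : R) : (eigO ρ Ω f).card = ρ.bodd := by
  rw [eigO, Multiset.card_sum, Realisation.bodd, ods]
  exact Finset.sum_congr rfl fun i _ => card_eig Ω _

theorem psm_add (A B : Multiset Ω) (n : ℕ) : psm (A + B) n = psm A n + psm B n := by
  rw [psm, psm, psm, Multiset.map_add, Multiset.sum_add]

theorem psm_sum {ι : Type} (s : Finset ι) (A : ι → Multiset Ω) (n : ℕ) :
    psm (∑ i ∈ s, A i) n = ∑ i ∈ s, psm (A i) n := by
  classical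
  induction s using Finset.induction_on with
  | empty => simp [psm]
  | insert a s ha ih => rw [Finset.sum_insert ha, Finset.sum_insert ha, psm_add, ih]

theorem psm_num (hTRP : T_TRP) (f : R) (n : ℕ) :
    psm (eigE ρ Ω f) n - psm (eigO ρ Ω f) n = ((num (f ^ n) : ℚ) : Ω) := by
  have h1 := congrArg (algebraMap K Ω) (trace_split ρ (f ^ n))
  rw [map_ratCast, map_sub, map_sum, map_sum] at h1
  rw [h1, eigE, eigO, psm_sum, psm_sum]
  congr 1
  · refine Finset.sum_congr rfl fun i _ => ?_
    rw [map_pow, Pi.pow_apply, hTRP K Ω]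
  · refine Finset.sum_congr rfl fun i _ => ?_
    rw [map_pow, Pi.pow_apply, hTRP K Ω]

theorem prod_eig {V : Type} [AddCommGroup V] [Module K V] [FiniteDimensional K V]
    (f : Module.End K V) :
    ((eig Ω f).map fun x => X - C x).prod = f.charpoly.map (algebraMap K Ω) := by
  rw [eig]
  exact ((IsAlgClosed.splits _).eq_prod_roots_of_monic
    ((LinearMap.charpoly_monic f).map _)).symm

theorem prod_sum {ι : Type} (s : Finset ι) (A : ι → Multiset Ω) :
    ((∑ i ∈ s, A i).map fun x => (X : Polynomial Ω) - C x).prod =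
      ∏ i ∈ s, ((A i).map fun x => X - C x).prod := by
  classical
  induction s using Finset.induction_on with
  | empty => simp
  | insert a s ha ih =>
    rw [Finset.sum_insert ha, Finset.prod_insert ha, Multiset.map_add, Multiset.prod_add, ih]

theorem prod_eigE (f : R) :
    ((eigE ρ Ω f).map fun x => X - C x).prod = (ρ.chE f).map (algebraMap K Ω) := by
  rw [eigE, prod_sum, Realisation.chE, Polynomial.map_prod, evs]
  exact Finset.prod_congr rfl fun i _ => prod_eig Ω _

theorem prod_eigO (f : R) :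
    ((eigO ρ Ω f).map fun x => X - C x).prod = (ρ.chO f).map (algebraMap K Ω) := by
  rw [eigO, prod_sum, Realisation.chO, Polynomial.map_prod, ods]
  exact Finset.prod_congr rfl fun i _ => prod_eig Ω _

end eig

section cop

variable {R : Type} [Ring R] [Algebra ℚ R] {num : R →ₗ[ℚ] ℚ} {d : ℕ} {K : Type} [Field K] [CharZero K]
variable (ρ : Realisation R num d K)

theorem actI_aeval (i : Fin (2 * d + 1)) (f : R) (p : ℚ[X]) :
    ρ.act (aeval f p) i = aeval (ρ.act f i) (p.map (algebraMap ℚ K)) := by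
  rw [← actI_apply, aeval_def, Polynomial.hom_eval₂, aeval_def, eval₂_map, actI_apply]
  congr 1
  exact Subsingleton.elim _ _

theorem cop (hTRP : T_TRP) (hRAT : T_RAT) (f : R) (h : IsCoprime (ρ.chE f) (ρ.chO f)) :
    ρ.Cplus := by
  let Ω := AlgebraicClosure K
  have : CharZero Ω := charZero_of_injective_algebraMap (algebraMap K Ω).injective
  have hdis : ∀ x ∈ eigE ρ Ω f, x ∉ eigO ρ Ω f := by
    intro x hx hx'
    have h1 : ((ρ.chE f).map (algebraMap K Ω)).eval x = 0 := by
      rw [← prod_eigE, eval_multiset_prod, Multiset.map_map, Multiset.prod_eq_zero_iff,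
        Multiset.mem_map]
      exact ⟨x, hx, by simp⟩
    have h2 : ((ρ.chO f).map (algebraMap K Ω)).eval x = 0 := by
      rw [← prod_eigO, eval_multiset_prod, Multiset.map_map, Multiset.prod_eq_zero_iff,
        Multiset.mem_map]
      exact ⟨x, hx', by simp⟩
    obtain ⟨u, v, huv⟩ := h.map (mapRingHom (algebraMap K Ω))
    have h3 := congrArg (eval x) huv
    rw [coe_mapRingHom, eval_add, eval_mul, eval_mul, h1, h2, mul_zero, mul_zero, add_zero,
      eval_one] at h3
    exact zero_ne_one h3
  obtain ⟨P, Q, hP, hQ⟩ := hRAT Ω (eigE ρ Ω f) (eigO ρ Ω f) (fun n => num (f ^ n)) hdis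
    (fun n _ => psm_num ρ Ω hTRP f n)
  have hcomp : algebraMap ℚ Ω = (algebraMap K Ω).comp (algebraMap ℚ K) := Subsingleton.elim _ _
  have hP' : P.map (algebraMap ℚ K) = ρ.chE f := by
    apply map_injective _ (algebraMap K Ω).injective
    rw [map_map, ← hcomp, hP, prod_eigE]
  have hQ' : Q.map (algebraMap ℚ K) = ρ.chO f := by
    apply map_injective _ (algebraMap K Ω).injective
    rw [map_map, ← hcomp, hQ, prod_eigO]
  rw [← hP', ← hQ', Polynomial.isCoprime_map] at h
  obtain ⟨U, V, hUV⟩ := h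
  refine ⟨aeval f (V * Q), ?_⟩
  funext i
  rw [actI_aeval, Realisation.pie]
  by_cases hi : Even (i : ℕ)
  · rw [if_pos hi]
    have h1 : V * Q = 1 - U * P := by rw [← hUV]; ring
    have h2 : aeval (ρ.act f i) (ρ.chE f) = 0 := by
      obtain ⟨w, hw⟩ : (ρ.act f i).charpoly ∣ ρ.chE f := by
        rw [Realisation.chE]
        exact Finset.dvd_prod_of_mem (fun i => (ρ.act f i).charpoly)
          (Finset.mem_filter.2 ⟨Finset.mem_univ i, hi⟩)
      rw [hw, map_mul, LinearMap.aeval_self_charpoly, zero_mul]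
    rw [h1, Polynomial.map_sub, Polynomial.map_one, Polynomial.map_mul, hP', map_sub, map_mul, h2,
      mul_zero, map_one, sub_zero]
  · rw [if_neg hi]
    have h2 : aeval (ρ.act f i) (ρ.chO f) = 0 := by
      obtain ⟨w, hw⟩ : (ρ.act f i).charpoly ∣ ρ.chO f := by
        rw [Realisation.chO]
        exact Finset.dvd_prod_of_mem (fun i => (ρ.act f i).charpoly)
          (Finset.mem_filter.2 ⟨Finset.mem_univ i, hi⟩)
      rw [hw, map_mul, LinearMap.aeval_self_charpoly, zero_mul]
    rw [Polynomial.map_mul, hQ', map_mul, h2, mul_zero]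

/-- the polynomial which makes a unipotent element `1` and a nilpotent element `0` -/
noncomputable def fix {S : Type} [Ring S] (m : ℕ) (f : S) : S := 1 - (1 - f ^ m) ^ m

theorem fix_one {S : Type} [Ring S] (m : ℕ) (f : S) (h : (f - 1) ^ m = 0) : fix m f = 1 := by
  have h1 : (1 - f ^ m) = -(f - 1) * ∑ i ∈ Finset.range m, f ^ i := by
    rw [neg_mul, mul_geom_sum, neg_sub]
  have h2 : Commute (-(f - 1)) (∑ i ∈ Finset.range m, f ^ i) := by
    refine Commute.neg_left ?_
    refine Commute.sum_right _ _ _ fun i _ => ?_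
    exact ((Commute.refl f).sub_left (Commute.one_left f)).pow_right i
  rw [fix, h1, h2.mul_pow, neg_pow, h, mul_zero, zero_mul, sub_zero]

theorem fix_zero {S : Type} [Ring S] (m : ℕ) (f : S) (h : f ^ m = 0) : fix m f = 0 := by
  rw [fix, h, sub_zero, one_pow, sub_self]

theorem key (hTRP : T_TRP) (hNIL : T_NIL) (hMUA : T_MUA) (f : R)
    (h : ∀ n : ℕ, 1 ≤ n → n ≤ ρ.bev + ρ.bodd + 1 → num (f ^ n) = ρ.bev) :
    ρ.act (fix (ρ.bev + ρ.bodd + 1) f) = ρ.pie := by
  let Ω := AlgebraicClosure K
  have : CharZero Ω := charZero_of_injective_algebraMap (algebraMap K Ω).injective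
  obtain ⟨h1, h2⟩ := hMUA Ω (eigE ρ Ω f) (eigO ρ Ω f) (by
    intro n hn hn'
    rw [card_eigE, card_eigO] at hn'
    have h1 := psm_num ρ Ω hTRP f n
    rw [h n hn hn'] at h1
    rw [card_eigE, ← sub_eq_iff_eq_add', h1]
    simp)
  have hle : ∀ i, Module.finrank K (ρ.H i) ≤ ρ.bev + ρ.bodd + 1 := by
    intro i
    by_cases hi : Even (i : ℕ)
    · have : Module.finrank K (ρ.H i) ≤ ρ.bev := by
        rw [Realisation.bev]
        exact Finset.single_le_sum (f := fun i => Module.finrank K (ρ.H i)) (fun _ _ => Nat.zero_le _)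
          (Finset.mem_filter.2 ⟨Finset.mem_univ i, hi⟩)
      omega
    · have : Module.finrank K (ρ.H i) ≤ ρ.bodd := by
        rw [Realisation.bodd]
        exact Finset.single_le_sum (f := fun i => Module.finrank K (ρ.H i)) (fun _ _ => Nat.zero_le _)
          (Finset.mem_filter.2 ⟨Finset.mem_univ i, hi⟩)
      omega
  funext i
  have hfix : ρ.act (fix (ρ.bev + ρ.bodd + 1) f) i = fix (ρ.bev + ρ.bodd + 1) (ρ.act f i) := by
    rw [← actI_apply, ← actI_apply, fix, fix, map_sub, map_one, map_pow, map_sub, map_one, map_pow]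
  rw [hfix, Realisation.pie]
  by_cases hi : Even (i : ℕ)
  · rw [if_pos hi]
    apply fix_one
    have h3 := hNIL K Ω (ρ.H i) (ρ.act f i) 1 (by
      intro x hx
      rw [map_one]
      refine h1 x ?_
      rw [eigE, Multiset.mem_sum]
      exact ⟨i, Finset.mem_filter.2 ⟨Finset.mem_univ i, hi⟩, hx⟩)
    rw [map_one] at h3
    exact pow_eq_zero_of_le (hle i) h3
  · rw [if_neg hi]
    apply fix_zero
    have h3 := hNIL K Ω (ρ.H i) (ρ.act f i) 0 (by
      intro x hx
      rw [map_zero]
      refine h2 x ?_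
      rw [eigO, Multiset.mem_sum]
      exact ⟨i, Finset.mem_filter.2 ⟨Finset.mem_univ i, hi⟩, hx⟩)
    rw [map_zero, sub_zero] at h3
    exact pow_eq_zero_of_le (hle i) h3

theorem bounds (hTRP : T_TRP) (hMUB : T_MUB) (e : R) (h : NumIdem num e) :
    -(ρ.bodd : ℚ) ≤ num e ∧ num e ≤ ρ.bev := by
  let Ω := AlgebraicClosure K
  have : CharZero Ω := charZero_of_injective_algebraMap (algebraMap K Ω).injective
  have h1 := hMUB Ω (eigE ρ Ω e) (eigO ρ Ω e) (num e) (fun n hn => by
    rw [psm_num ρ Ω hTRP e n, idem_pow h n hn])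
  rw [card_eigE, card_eigO] at h1
  exact h1

end cop

end Pool.Agent.H16.CS
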