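import Pool.Agent.H16.CS.Eig

/-!
# The main theorem from the modules
-/

set_option autoImplicit false

open Polynomial

namespace Pool.Agent.H16.CS

variable {R : Type} [Ring R] [Algebra ℚ R] {num : R →ₗ[ℚ] ℚ} {d : ℕ} {K : Type} [Field K] [CharZero K]

theorem cop_of_span (hDEN : T_DEN) (ρ : Realisation R num d K) (h : ρ.CplusK) :
    ∃ f : R, IsCoprime (ρ.chE f) (ρ.chO f) := by
  rw [Realisation.CplusK, ← Set.image_univ, Submodule.mem_span_image_iff_exists_fun] at h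
  obtain ⟨t, -, c, hc⟩ := h
  obtain ⟨q, hq⟩ := hDEN K (Fin (2 * d + 1)) t ρ.H (fun i => Even (i : ℕ))
    (fun k i => ρ.act (k : R) i) c (by
    intro i
    have h1 := congrFun hc i
    rw [Finset.sum_apply] at h1
    rw [show (∑ k : t, c k • ρ.act (k : R) i) = ∑ k : t, (c k • ρ.act (k : R)) i from rfl, h1,
      Realisation.pie])
  refine ⟨∑ k : t, q k • (k : R), ?_⟩
  have h2 : ∀ i, ρ.act (∑ k : t, q k • (k : R)) i = ∑ k : t, (q k : K) • ρ.act (k : R) i := by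
    intro i
    rw [map_sum, Finset.sum_apply]
    refine Finset.sum_congr rfl fun k _ => ?_
    have h3 : q k • (k : R) = algebraMap ℚ R (q k) * (k : R) := Algebra.smul_def _ _
    have h4 : ρ.act (algebraMap ℚ R (q k)) i = algebraMap K (Module.End K (ρ.H i)) (q k : K) := by
      have h5 : (actI ρ i).comp (algebraMap ℚ R) =
        (algebraMap K (Module.End K (ρ.H i))).comp (algebraMap ℚ K) := Subsingleton.elim _ _
      have h6 := congrArg (fun g => g (q k)) h5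
      rw [← actI_apply]
      simpa using h6
    rw [h3, map_mul, Pi.mul_apply, h4, Algebra.smul_def]
  rw [Realisation.chE, Realisation.chO]
  refine IsCoprime.prod_left fun i hi => IsCoprime.prod_right fun j hj => ?_
  rw [h2, h2]
  exact hq i j (Finset.mem_filter.1 hi).2 (Finset.mem_filter.1 hj).2

theorem span_of_split (hGOO : T_GOO) (ρ : Realisation R num d K) (h : ρ.StableSplit) :
    ρ.CplusK := by
  refine hGOO K (Fin (2 * d + 1)) ρ.H (fun i => Even (i : ℕ)) R ρ.act ?_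
  intro W hW x hx
  have h1 := h W hW x hx
  have h2 : (fun i => ρ.pie i (x i)) = fun i : Fin (2 * d + 1) => if Even (i : ℕ) then x i else 0 := by
    funext i
    rw [Realisation.pie]
    split_ifs <;> simp
  rw [h2] at h1
  exact h1

theorem split_of_cplus (ρ : Realisation R num d K) (h : ρ.Cplus) : ρ.StableSplit := by
  obtain ⟨f, hf⟩ := h
  intro W hW x hx
  have h1 := hW f x hx
  rw [hf] at h1
  exact h1

/-- Two realisations with the same Betti sums. -/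
theorem main_two (hTRP : T_TRP) (hNIL : T_NIL) (hMUA : T_MUA) (ρ : Realisation R num d K)
    {d' : ℕ} {K' : Type} [Field K'] [CharZero K'] (ρ' : Realisation R num d' K')
    (h1 : ρ'.bev = ρ.bev) (h2 : ρ'.bodd = ρ.bodd) (h : ρ.Cplus) :
    ∃ f : R, ρ.act f = ρ.pie ∧ ρ'.act f = ρ'.pie := by
  obtain ⟨f, hf⟩ := h
  have h3 : ∀ n : ℕ, 1 ≤ n → num (f ^ n) = ρ.bev := fun n hn => by
    rw [idem_pow (idem_of_act ρ hf) n hn, num_of_act ρ hf]
  refine ⟨fix (ρ.bev + ρ.bodd + 1) f, key ρ hTRP hNIL hMUA f fun n hn _ => h3 n hn, ?_⟩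
  have h4 := key ρ' hTRP hNIL hMUA f fun n hn _ => by rw [h3 n hn, h1]
  rw [h1, h2] at h4
  exact h4

/-- The main theorem from the modules. -/
theorem main (hTRP : T_TRP) (hNIL : T_NIL) (hMUA : T_MUA) (hMUB : T_MUB) (hRAT : T_RAT)
    (hDEN : T_DEN) (hGOO : T_GOO) (ρ : Realisation R num d K) :
    [ρ.Cplus,
     ρ.CplusK,
     ρ.StableSplit,
     ∃ f : R, IsCoprime (ρ.chE f) (ρ.chO f),
     IsGreatest {q : ℚ | ∃ e : R, NumIdem num e ∧ num e = q} (ρ.bev : ℚ),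
     IsGreatest {q : ℚ | ∃ s : R, NumInvol num s ∧ num s = q} ((ρ.bev : ℚ) + ρ.bodd),
     ∃ f : R, ∀ n : ℕ, 1 ≤ n → n ≤ ρ.bev + ρ.bodd + 1 → num (f ^ n) = ρ.bev,
     ∀ (d' : ℕ) (K' : Type) [Field K'] [CharZero K'] (ρ' : Realisation R num d' K'),
       ρ'.bev = ρ.bev → ρ'.bodd = ρ.bodd → ∃ f : R, ρ.act f = ρ.pie ∧ ρ'.act f = ρ'.pie].TFAE := by
  tfae_have 1 → 2 := fun ⟨f, hf⟩ => Submodule.subset_span ⟨f, hf⟩
  tfae_have 2 → 4 := cop_of_span hDEN ρ
  tfae_have 4 → 1 := fun ⟨f, hf⟩ => cop ρ hTRP hRAT f hf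
  tfae_have 1 → 3 := split_of_cplus ρ
  tfae_have 3 → 2 := span_of_split hGOO ρ
  tfae_have 1 → 5 := fun ⟨f, hf⟩ => ⟨⟨f, idem_of_act ρ hf, num_of_act ρ hf⟩,
    fun q ⟨e, he, hq⟩ => hq ▸ (bounds ρ hTRP hMUB e he).2⟩
  tfae_have 5 → 6 := by
    rintro ⟨⟨e, he, hn⟩, -⟩
    refine ⟨⟨2 * e - 1, invol_of_idem he, ?_⟩, ?_⟩
    · rw [map_sub, num_one ρ, two_mul, map_add, hn]
      ring
    · rintro q ⟨s, hs, rfl⟩
      have h2 := (bounds ρ hTRP hMUB _ (idem_of_invol hs)).2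
      rw [map_smul, map_add, num_one ρ, smul_eq_mul] at h2
      linarith
  tfae_have 6 → 7 := by
    rintro ⟨⟨s, hs, hn⟩, -⟩
    refine ⟨(1 / 2 : ℚ) • (1 + s), fun n h1 _ => ?_⟩
    rw [idem_pow (idem_of_invol hs) n h1, map_smul, map_add, num_one ρ, hn, smul_eq_mul]
    ring
  tfae_have 7 → 1 := fun ⟨f, hf⟩ => ⟨_, key ρ hTRP hNIL hMUA f hf⟩
  tfae_have 1 → 8 := fun h d' K' _ _ ρ' h1 h2 => main_two hTRP hNIL hMUA ρ ρ' h1 h2 h
  tfae_have 8 → 1 := fun h => by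
    obtain ⟨f, hf, -⟩ := h d K ρ rfl rfl
    exact ⟨f, hf⟩
  tfae_finish

end Pool.Agent.H16.CS
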