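import Pool.Agent.H87.CS.Targets

/-!
# Module GEO1 for MP_cf7d1d_an
-/

set_option autoImplicit false

namespace Pool.Agent.H16.CS

open Set Complex Topology Filter Pool.Agent.H87.CS
open scoped ContDiff

theorem pt1_apply_zero (z w : ℂ) : pt1 z w 0 = Complex.exp (2 * Real.pi * I * w) := rfl
theorem pt1_apply_one (z w : ℂ) : pt1 z w 1 = z * Complex.exp (2 * Real.pi * I * w) := rfl
theorem pt2_apply_zero (z w : ℂ) : pt2 z w 0 = z * Complex.exp (2 * Real.pi * I * w) := rfl
theorem pt2_apply_one (z w : ℂ) : pt2 z w 1 = Complex.exp (2 * Real.pi * I * w) := rfl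

theorem exp_add_int (w : ℂ) (n : ℤ) :
    Complex.exp (2 * Real.pi * I * (w + n)) = Complex.exp (2 * Real.pi * I * w) := by
  rw [Complex.exp_eq_exp_iff_exists_int]
  exact ⟨n, by ring⟩

theorem pt1_add_int (z w : ℂ) (n : ℤ) : pt1 z (w + n) = pt1 z w := by
  unfold pt1; rw [exp_add_int]

theorem pt2_add_int (z w : ℂ) (n : ℤ) : pt2 z (w + n) = pt2 z w := by
  unfold pt2; rw [exp_add_int]

theorem F_add_int {F : ℝ → ℂ → ℂ} (h : ∀ τ z, F (τ + 1) z = F τ z + 1) (τ : ℝ) (z : ℂ) (n : ℤ) :
    F (τ + n) z = F τ z + n := by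
  induction n using Int.induction_on with
  | zero => simp
  | succ i ih =>
    push_cast at ih ⊢
    rw [← add_assoc, h, ih]; ring
  | pred i ih =>
    push_cast at ih ⊢
    have := h (τ + (-(i : ℝ) - 1)) z
    rw [show τ + (-(i : ℝ) - 1) + 1 = τ + -(i : ℝ) by ring, ih] at this
    linear_combination -this

theorem E_add_int {E : Set (ℝ × ℂ)} (h : ∀ τ z, (τ + 1, z) ∈ E ↔ (τ, z) ∈ E) (τ : ℝ) (z : ℂ) (n : ℤ) :
    (τ + n, z) ∈ E ↔ (τ, z) ∈ E := by
  induction n using Int.induction_on with
  | zero => simp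
  | succ i ih =>
    push_cast at ih ⊢
    rw [← add_assoc, h, ih]
  | pred i ih =>
    push_cast at ih ⊢
    have := h (τ + (-(i : ℝ) - 1)) z
    rw [show τ + (-(i : ℝ) - 1) + 1 = τ + -(i : ℝ) by ring, ih] at this
    exact this.symm

section
variable {F : ℝ → ℂ → ℂ} {E : Set (ℝ × ℂ)}

theorem F_fract (h : Fam F E) (τ : ℝ) (z : ℂ) : F τ z = F (Int.fract τ) z + (⌊τ⌋ : ℤ) := by
  rw [← F_add_int h.per]
  congr 1
  exact (Int.fract_add_floor τ).symm

theorem E_fract (h : Fam F E) (τ : ℝ) (z : ℂ) : (τ, z) ∈ E ↔ (Int.fract τ, z) ∈ E := by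
  rw [← E_add_int h.eper (Int.fract τ) z ⌊τ⌋, Int.fract_add_floor]

/-- The two maps. -/
noncomputable def phi (F : ℝ → ℂ → ℂ) (j : Bool) (q : ℝ × ℂ) : V2 :=
  if j then pt1 q.2 (F q.1 q.2) else pt2 q.2 (F q.1 q.2)

theorem phi_fract (h : Fam F E) (j : Bool) (τ : ℝ) (z : ℂ) : phi F j (τ, z) = phi F j (Int.fract τ, z) := by
  unfold phi
  simp only
  rw [F_fract h τ z, pt1_add_int, pt2_add_int]

theorem continuous_phi (h : Fam F E) (j : Bool) : Continuous (phi F j) := by
  have he : Continuous (fun q : ℝ × ℂ => Complex.exp (2 * Real.pi * I * F q.1 q.2)) :=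
    Complex.continuous_exp.comp (continuous_const.mul h.cont)
  have he2 : Continuous (fun q : ℝ × ℂ => q.2 * Complex.exp (2 * Real.pi * I * F q.1 q.2)) :=
    continuous_snd.mul he
  cases j
  · refine continuous_pi fun i => ?_
    fin_cases i
    · exact he2
    · exact he
  · refine continuous_pi fun i => ?_
    fin_cases i
    · exact he
    · exact he2

theorem phi_inj (h : Fam F E) (j : Bool) {τ τ' : ℝ} {z z' : ℂ} (hτ : |τ - τ'| < 1)
    (he : phi F j (τ, z) = phi F j (τ', z')) : (τ, z) = (τ', z') := by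
  have key : Complex.exp (2 * Real.pi * I * F τ z) = Complex.exp (2 * Real.pi * I * F τ' z') ∧
      z * Complex.exp (2 * Real.pi * I * F τ z) = z' * Complex.exp (2 * Real.pi * I * F τ' z') := by
    cases j
    · exact ⟨congrFun he 1, congrFun he 0⟩
    · exact ⟨congrFun he 0, congrFun he 1⟩
  obtain ⟨h1, h2⟩ := key
  have hz : z = z' := by
    rw [h1] at h2
    exact mul_right_cancel₀ (Complex.exp_ne_zero _) h2
  subst hz
  obtain ⟨n, hn⟩ := Complex.exp_eq_exp_iff_exists_int.1 h1
  have h3 : F τ z = F τ' z + n := by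
    have hpi : (2 * Real.pi * I : ℂ) ≠ 0 := Complex.two_pi_I_ne_zero
    apply mul_left_cancel₀ hpi
    rw [hn]; ring
  have h4 : (F τ z).re = (F τ' z).re + n := by rw [h3]; simp
  have main : ∀ s s' : ℝ, s ≤ s' → s' - s < 1 → ∀ k : ℤ, (F s' z).re = (F s z).re + k → s = s' := by
    intro s s' hs hs1 k hk
    have m1 := h.mono z s s' hs
    have m2 := h.mono z s' (s + 1) (by linarith)
    rw [h.per] at m2
    simp only [Complex.add_re, Complex.one_re] at m2
    have k1 : (k : ℝ) < 1 := by linarith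
    have k0 : (0 : ℝ) ≤ k := by linarith
    have k2 : k < 1 := by exact_mod_cast k1
    have k3 : 0 ≤ k := by exact_mod_cast k0
    have : k = 0 := by omega
    subst this
    simp at hk
    linarith
  rcases abs_lt.1 hτ with ⟨ha, hb⟩
  rcases le_total τ τ' with hle | hle
  · have := main τ τ' hle (by linarith) (-n) (by push_cast; linarith)
    rw [this]
  · have := main τ' τ hle (by linarith) n h4
    rw [this]

/-- The pieces. -/
def Pc (E : Set (ℝ × ℂ)) (i : Bool) : Set (ℝ × ℂ) :=
  E ∩ (Icc (if i then 0 else 1 / 2) (if i then 1 / 2 else 1) ×ˢ Metric.closedBall 0 2)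

theorem isCompact_Pc (h : Fam F E) (i : Bool) : IsCompact (Pc E i) :=
  ((isCompact_Icc.prod (isCompact_closedBall _ _)).inter_left h.closed)

theorem td_image (h : Fam F E) (i j : Bool) : IsTotallyDisconnected (phi F j '' Pc E i) := by
  have : CompactSpace (Pc E i) := isCompact_iff_compactSpace.1 (isCompact_Pc h i)
  have hc : Continuous (fun q : Pc E i => phi F j q) := (continuous_phi h j).comp continuous_subtype_val
  have hi : Function.Injective (fun q : Pc E i => phi F j q) := by
    rintro ⟨⟨τ, z⟩, hq⟩ ⟨⟨τ', z'⟩, hq'⟩ he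
    apply Subtype.ext
    refine phi_inj h j ?_ he
    have h1 := hq.2.1
    have h2 := hq'.2.1
    cases i
    · simp only [Bool.false_eq_true, if_false, mem_Icc] at h1 h2
      rw [abs_lt]
      constructor <;> linarith [h1.1, h1.2, h2.1, h2.2]
    · simp only [if_true, mem_Icc] at h1 h2
      rw [abs_lt]
      constructor <;> linarith [h1.1, h1.2, h2.1, h2.2]
  have hemb := (hc.isClosedEmbedding hi).isEmbedding
  have htd : TotallyDisconnectedSpace (Pc E i) :=
    totallyDisconnectedSpace_subtype_iff.2 (fun t ht hp => h.td t (ht.trans inter_subset_left) hp)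
  have := hemb.isTotallyDisconnected_range.2 htd
  convert this using 1
  rw [image_eq_range]

theorem X0_eq (h : Fam F E) : X0 F E = phi F true '' Pc E true ∪ phi F true '' Pc E false ∪
    (phi F false '' Pc E true ∪ phi F false '' Pc E false) := by
  ext x
  constructor
  · rintro ⟨τ, z, hE, hz, hx⟩
    have hE' := (E_fract h τ z).1 hE
    have hz' : z ∈ Metric.closedBall (0 : ℂ) 2 := by simpa using hz
    have hj : ∀ j : Bool, x = phi F j (τ, z) → x ∈ phi F j '' Pc E true ∪ phi F j '' Pc E false := by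
      intro j hxj
      rw [phi_fract h] at hxj
      rcases le_total (Int.fract τ) (1 / 2) with hle | hle
      · left
        refine ⟨_, ⟨hE', ⟨?_, hz'⟩⟩, hxj.symm⟩
        simp only [if_true, mem_Icc]
        exact ⟨Int.fract_nonneg _, hle⟩
      · right
        refine ⟨_, ⟨hE', ⟨?_, hz'⟩⟩, hxj.symm⟩
        simp only [Bool.false_eq_true, if_false, mem_Icc]
        exact ⟨hle, (Int.fract_lt_one _).le⟩
    rcases hx with hx | hx
    · exact Or.inl (hj true hx)
    · exact Or.inr (hj false hx)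
  · have hj : ∀ (j i : Bool), x ∈ phi F j '' Pc E i → x ∈ X0 F E := by
      rintro j i ⟨⟨τ, z⟩, hq, rfl⟩
      refine ⟨τ, z, hq.1, by simpa using hq.2.2, ?_⟩
      cases j
      · exact Or.inr rfl
      · exact Or.inl rfl
    rintro ((hx | hx) | (hx | hx))
    · exact hj _ _ hx
    · exact hj _ _ hx
    · exact hj _ _ hx
    · exact hj _ _ hx

theorem W_eq (h : Fam F E) : W F =
    (fun q : (ℝ × ℂ) × ℝ => q.2 • phi F true q.1) ''
      ((Icc 0 1 ×ˢ Metric.closedBall 0 2) ×ˢ Icc 0 1) ∪
    (fun q : (ℝ × ℂ) × ℝ => q.2 • phi F false q.1) ''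
      ((Icc 0 1 ×ˢ Metric.closedBall 0 2) ×ˢ Icc 0 1) := by
  ext x
  constructor
  · rintro ⟨τ, z, t, hz, h0, h1, hx⟩
    have hz' : z ∈ Metric.closedBall (0 : ℂ) 2 := by simpa using hz
    have hj : ∀ j : Bool, x = t • phi F j (τ, z) →
        x ∈ (fun q : (ℝ × ℂ) × ℝ => q.2 • phi F j q.1) ''
          ((Icc 0 1 ×ˢ Metric.closedBall 0 2) ×ˢ Icc 0 1) := by
      intro j hxj
      rw [phi_fract h] at hxj
      exact ⟨((Int.fract τ, z), t), ⟨⟨⟨Int.fract_nonneg _, (Int.fract_lt_one _).le⟩, hz'⟩, ⟨h0, h1⟩⟩,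
        hxj.symm⟩
    rcases hx with hx | hx
    · exact Or.inl (hj true hx)
    · exact Or.inr (hj false hx)
  · rintro (⟨⟨⟨τ, z⟩, t⟩, ⟨⟨_, hz⟩, ht⟩, rfl⟩ | ⟨⟨⟨τ, z⟩, t⟩, ⟨⟨_, hz⟩, ht⟩, rfl⟩)
    · exact ⟨τ, z, t, by simpa using hz, ht.1, ht.2, Or.inl rfl⟩
    · exact ⟨τ, z, t, by simpa using hz, ht.1, ht.2, Or.inr rfl⟩

end

theorem geo1 (huni : T_uni) : T_geo1 := by
  intro F E h
  have hc : ∀ i j : Bool, IsCompact (phi F j '' Pc E i) := fun i j =>
    (isCompact_Pc h i).image (continuous_phi h j)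
  have htd := td_image h
  refine ⟨?_, ?_, ?_⟩
  · rw [X0_eq h]
    exact ((hc _ _).union (hc _ _)).union ((hc _ _).union (hc _ _))
  · rw [W_eq h]
    have hK : IsCompact ((Icc (0:ℝ) 1 ×ˢ Metric.closedBall (0:ℂ) 2) ×ˢ Icc (0:ℝ) 1) :=
      (isCompact_Icc.prod (isCompact_closedBall _ _)).prod isCompact_Icc
    exact (hK.image (continuous_snd.smul ((continuous_phi h true).comp continuous_fst))).union
      (hK.image (continuous_snd.smul ((continuous_phi h false).comp continuous_fst)))
  · set Y : ℕ → Set V2 := fun k => if k = 0 then phi F true '' Pc E false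
      else if k = 1 then phi F false '' Pc E true else if k = 2 then phi F false '' Pc E false else ∅
      with hY
    have := (huni (phi F true '' Pc E true) Y (hc _ _) (htd _ _) (fun k => by
      simp only [hY]; split_ifs <;> [exact hc _ _; exact hc _ _; exact hc _ _; exact isCompact_empty])
      (fun k => by
        simp only [hY]
        split_ifs <;> [exact htd _ _; exact htd _ _; exact htd _ _; exact isTotallyDisconnected_empty])
      (fun ε _ => ⟨3, fun k hk y hy => by
        simp only [hY] at hy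
        rw [if_neg (by omega), if_neg (by omega), if_neg (by omega)] at hy
        exact absurd hy (notMem_empty _)⟩)).2
    rw [X0_eq h]
    convert this using 1
    ext x
    simp only [mem_union, mem_iUnion, hY]
    constructor
    · rintro ((hx | hx) | (hx | hx))
      · exact Or.inl hx
      · exact Or.inr ⟨0, by simpa using hx⟩
      · exact Or.inr ⟨1, by simpa using hx⟩
      · exact Or.inr ⟨2, by simpa using hx⟩
    · rintro (hx | ⟨k, hk⟩)
      · exact Or.inl (Or.inl hx)
      · split_ifs at hk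
        · exact Or.inl (Or.inr hk)
        · exact Or.inr (Or.inl hk)
        · exact Or.inr (Or.inr hk)
        · exact absurd hk (notMem_empty _)

end Pool.Agent.H16.CS
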