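import Pool.Agent.H87.CS.Targets

/-!
# Module STEP for MP_cf7d1d_an
-/

set_option autoImplicit false

namespace Pool.Agent.H16.CS

open Set Complex Topology Filter Pool.Agent.H87.CS
open scoped ContDiff

/-- the coordinate function -/
noncomputable def P (ax : Bool) : ℂ →L[ℝ] ℝ := if ax then Complex.imCLM else Complex.reCLM

noncomputable def kap (ax : Bool) : ℂ := if ax then -2 * I else 2

theorem P_apply (ax : Bool) (z : ℂ) : P ax z = if ax then z.im else z.re := by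
  cases ax <;> simp [P]

theorem norm_kap (ax : Bool) : ‖kap ax‖ = 2 := by
  cases ax <;> simp [kap]

theorem kap_mul (ax : Bool) : kap ax * ((1 / 2) * (((P ax 1 : ℝ) : ℂ) + I * ((P ax I : ℝ) : ℂ))) = 1 := by
  cases ax
  · simp [kap, P]
  · simp only [kap, P, if_true]
    simp
    rw [show (2 : ℂ) * I * (2⁻¹ * I) = I * I by ring, I_mul_I]
    ring

theorem dbar_eq {u : ℂ → ℂ} {z : ℂ} {L : ℂ →L[ℝ] ℂ} (h : HasFDerivAt u L z) :
    dbar u z = (1 / 2) * (L 1 + I * L I) := by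
  unfold dbar; rw [h.fderiv]

theorem dbar_mul {u v : ℂ → ℂ} {z : ℂ} (hu : DifferentiableAt ℝ u z) (hv : DifferentiableAt ℝ v z) :
    dbar (fun w => u w * v w) z = dbar u z * v z + u z * dbar v z := by
  rw [dbar_eq (u := fun w => u w * v w) (hu.hasFDerivAt.mul hv.hasFDerivAt)]
  simp [dbar]
  ring

theorem dbar_add {u v : ℂ → ℂ} {z : ℂ} (hu : DifferentiableAt ℝ u z) (hv : DifferentiableAt ℝ v z) :
    dbar (fun w => u w + v w) z = dbar u z + dbar v z := by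
  rw [dbar_eq (u := fun w => u w + v w) (hu.hasFDerivAt.add hv.hasFDerivAt)]
  simp [dbar]
  ring

theorem dbar_sub {u v : ℂ → ℂ} {z : ℂ} (hu : DifferentiableAt ℝ u z) (hv : DifferentiableAt ℝ v z) :
    dbar (fun w => u w - v w) z = dbar u z - dbar v z := by
  rw [dbar_eq (u := fun w => u w - v w) (hu.hasFDerivAt.sub hv.hasFDerivAt)]
  simp [dbar]
  ring

theorem dbar_const_mul {v : ℂ → ℂ} {z : ℂ} (c : ℂ) (hv : DifferentiableAt ℝ v z) :
    dbar (fun w => c * v w) z = c * dbar v z := by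
  rw [dbar_eq (u := fun w => c * v w) (hv.hasFDerivAt.const_mul c)]
  simp [dbar]
  ring

/-- `z ↦ β (P z / l)` -/
noncomputable def bet (β : ℝ → ℝ) (ax : Bool) (l : ℝ) (z : ℂ) : ℂ := ((β (P ax z / l) : ℝ) : ℂ)

theorem contDiff_bet {β : ℝ → ℝ} (hβ : ContDiff ℝ ∞ β) (ax : Bool) (l : ℝ) :
    ContDiff ℝ ∞ (bet β ax l) := by
  unfold bet
  exact Complex.ofRealCLM.contDiff.comp (hβ.comp ((P ax).contDiff.div_const l))

theorem dbar_bet {β : ℝ → ℝ} (hβ : ContDiff ℝ ∞ β) (ax : Bool) {l : ℝ} (hl : 0 < l) (z : ℂ) :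
    (kap ax * l) * dbar (bet β ax l) z = ((deriv β (P ax z / l) : ℝ) : ℂ) := by
  have h1 : HasFDerivAt (fun z : ℂ => P ax z / l) (l⁻¹ • (P ax : ℂ →L[ℝ] ℝ)) z := by
    have := (P ax).hasFDerivAt (x := z) |>.const_smul (l⁻¹)
    refine this.congr_of_eventuallyEq (Eventually.of_forall fun w => ?_)
    simp [div_eq_inv_mul]
  have h2 : HasDerivAt β (deriv β (P ax z / l)) (P ax z / l) :=
    ((hβ.differentiable (by simp)) _).hasDerivAt
  have h3 := h2.comp_hasFDerivAt z h1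
  have h4 : HasFDerivAt (bet β ax l)
      (Complex.ofRealCLM.comp ((deriv β (P ax z / l)) • (l⁻¹ • (P ax : ℂ →L[ℝ] ℝ)))) z :=
    Complex.ofRealCLM.hasFDerivAt.comp z h3
  rw [dbar_eq h4]
  have hl' : (l : ℂ) ≠ 0 := by exact_mod_cast hl.ne'
  have := kap_mul ax
  simp only [ContinuousLinearMap.comp_apply, _root_.smul_apply, Complex.ofRealCLM_apply,
    smul_eq_mul, Complex.ofReal_mul, Complex.ofReal_inv]
  calc (kap ax * l) * (1 / 2 * ((deriv β (P ax z / l) : ℝ) * ((l : ℂ)⁻¹ * ((P ax 1 : ℝ) : ℂ)) +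
        I * ((deriv β (P ax z / l) : ℝ) * ((l : ℂ)⁻¹ * ((P ax I : ℝ) : ℂ)))))
      = (l * (l : ℂ)⁻¹) * (deriv β (P ax z / l) : ℝ) *
        (kap ax * ((1 / 2) * (((P ax 1 : ℝ) : ℂ) + I * ((P ax I : ℝ) : ℂ)))) := by ring
    _ = _ := by rw [this, mul_inv_cancel₀ hl']; ring

theorem bounded_of_periodic {E : Type*} [NormedAddCommGroup E] (G : ℝ × ℂ → E) (hG : Continuous G)
    (hper : ∀ τ z, G (τ + 1, z) = G (τ, z)) (hs : ∀ τ z, 3 < ‖z‖ → G (τ, z) = 0) :
    ∃ K : ℝ, 0 ≤ K ∧ ∀ q, ‖G q‖ ≤ K := by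
  obtain ⟨K, hK⟩ := ((isCompact_Icc (a := (0:ℝ)) (b := 1)).prod
    (isCompact_closedBall (0:ℂ) 3)).exists_bound_of_continuousOn hG.continuousOn
  refine ⟨max K 0, le_max_right _ _, ?_⟩
  rintro ⟨τ, z⟩
  by_cases hz : 3 < ‖z‖
  · rw [hs τ z hz]; simp
  · have hp : Function.Periodic (fun t => G (t, z)) 1 := fun t => hper t z
    have h1 : G (τ, z) = G (Int.fract τ, z) := by
      have := hp.sub_zsmul_eq (x := τ) ⌊τ⌋
      simp only [zsmul_eq_mul, mul_one] at this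
      rw [← this]
      rfl
    rw [h1]
    refine (hK _ ⟨⟨Int.fract_nonneg _, (Int.fract_lt_one _).le⟩, ?_⟩).trans (le_max_left _ _)
    simpa using not_lt.1 hz

theorem lip_of_periodic (G : ℝ × ℂ → ℂ) (hG : ContDiff ℝ ∞ G)
    (hper : ∀ τ z, G (τ + 1, z) = G (τ, z)) (hs : ∀ τ z, 3 < ‖z‖ → G (τ, z) = 0) :
    ∃ K : ℝ, 0 ≤ K ∧ (∀ q, ‖G q‖ ≤ K) ∧ ∀ τ τ' z, ‖G (τ, z) - G (τ', z)‖ ≤ K * |τ - τ'| := by
  obtain ⟨K₀, hK₀, h₀⟩ := bounded_of_periodic G hG.continuous hper hs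
  have hc : Continuous (fderiv ℝ G) := hG.continuous_fderiv (by simp)
  obtain ⟨K₁, hK₁, h₁⟩ := bounded_of_periodic (fderiv ℝ G) hc
    (by
      intro τ z
      have : (fun q : ℝ × ℂ => G (q + (1, 0))) = G := by
        funext q
        obtain ⟨t, w⟩ := q
        simp [hper]
      have h := fderiv_comp_add_right (𝕜 := ℝ) (f := G) (x := (τ, z)) ((1, 0) : ℝ × ℂ)
      rw [this] at h
      rw [h]
      simp)
    (by
      intro τ z hz
      have : G =ᶠ[𝓝 (τ, z)] fun _ => 0 := by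
        have ho : IsOpen {q : ℝ × ℂ | 3 < ‖q.2‖} :=
          isOpen_lt continuous_const (continuous_norm.comp continuous_snd)
        filter_upwards [ho.mem_nhds (show (τ, z) ∈ {q : ℝ × ℂ | 3 < ‖q.2‖} from hz)] with q hq
        exact hs q.1 q.2 hq
      rw [this.fderiv_eq]
      simp)
  refine ⟨max K₀ K₁, le_max_of_le_left hK₀, fun q => (h₀ q).trans (le_max_left _ _), ?_⟩
  intro τ τ' z
  have := Convex.norm_image_sub_le_of_norm_fderiv_le (𝕜 := ℝ) (f := G) (C := max K₀ K₁)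
    (s := Set.univ) (x := (τ', z)) (y := (τ, z))
    (fun q _ => (hG.differentiable (by simp)) q) (fun q _ => (h₁ q).trans (le_max_right _ _))
    convex_univ (mem_univ _) (mem_univ _)
  refine this.trans (mul_le_mul_of_nonneg_left ?_ (le_max_of_le_left hK₀))
  simp [Prod.norm_def, Real.norm_eq_abs]

/-- `dbar` in the second variable. -/
noncomputable def D (G : ℝ × ℂ → ℂ) (q : ℝ × ℂ) : ℂ :=
  (1 / 2) * (fderiv ℝ G q (0, 1) + I * fderiv ℝ G q (0, I))

theorem dbar_slice {m : ℝ → ℂ → ℂ} (hm : ContDiff ℝ ∞ (fun q : ℝ × ℂ => m q.1 q.2)) (τ : ℝ) (z : ℂ) :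
    dbar (m τ) z = D (fun q : ℝ × ℂ => m q.1 q.2) (τ, z) := by
  have h1 : HasFDerivAt (fun q : ℝ × ℂ => m q.1 q.2)
      (fderiv ℝ (fun q : ℝ × ℂ => m q.1 q.2) (τ, z)) (τ, z) :=
    ((hm.differentiable (by simp)) _).hasFDerivAt
  have h2 : HasFDerivAt (fun w : ℂ => (τ, w)) (ContinuousLinearMap.inr ℝ ℝ ℂ) z :=
    hasFDerivAt_prodMk_right τ z
  have h3 := h1.comp z h2
  rw [dbar_eq (u := m τ) h3]
  simp [D]

theorem contDiff_D {G : ℝ × ℂ → ℂ} (hG : ContDiff ℝ ∞ G) : ContDiff ℝ ∞ (D G) := by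
  have h : ContDiff ℝ ∞ (fderiv ℝ G) := hG.fderiv_right (by simp)
  unfold D
  exact contDiff_const.mul ((h.clm_apply contDiff_const).add
    (contDiff_const.mul (h.clm_apply contDiff_const)))

theorem bounded_of_periodic_real {c : ℝ} (hc : c ≠ 0) (f : ℝ → ℝ) (hf : Continuous f)
    (hp : Function.Periodic f c) : ∃ K : ℝ, 0 ≤ K ∧ ∀ x, |f x| ≤ K := by
  obtain ⟨K, hK⟩ := (hp.isBounded_of_continuous hc hf).exists_norm_le
  exact ⟨max K 0, le_max_right _ _, fun x => (hK _ (mem_range_self x)).trans (le_max_left _ _)⟩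

theorem lip_of_periodic_real {c : ℝ} (hc : c ≠ 0) (f : ℝ → ℝ) (hf : ContDiff ℝ ∞ f)
    (hp : Function.Periodic f c) :
    ∃ K : ℝ, 0 ≤ K ∧ (∀ x, |f x| ≤ K) ∧ ∀ x y, |f x - f y| ≤ K * |x - y| := by
  obtain ⟨K₀, hK₀, h₀⟩ := bounded_of_periodic_real hc f hf.continuous hp
  obtain ⟨K₁, hK₁, h₁⟩ := bounded_of_periodic_real hc (deriv f) (hf.continuous_deriv (by simp))
    (by
      intro x
      have : (fun y => f (y + c)) = f := funext hp
      rw [← deriv_comp_add_const, this])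
  refine ⟨max K₀ K₁, le_max_of_le_left hK₀, fun q => (h₀ q).trans (le_max_left _ _), ?_⟩
  intro x y
  exact Convex.norm_image_sub_le_of_norm_deriv_le (𝕜 := ℝ) (f := f) (C := max K₀ K₁)
    (s := Set.univ) (x := y) (y := x)
    (fun q _ => (hf.differentiable (by simp)) q) (fun q _ => (h₁ q).trans (le_max_right _ _))
    convex_univ (mem_univ _) (mem_univ _)


/-- One summand of the correction. -/
noncomputable def Th (C : (ℂ → ℂ) → (ℂ → ℂ)) (m : ℝ → ℂ → ℂ) (β : ℝ → ℝ) (ax : Bool) (l : ℝ)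
    (τ : ℝ) (z : ℂ) : ℂ :=
  m τ z * bet β ax l z - C (fun w => dbar (m τ) w * bet β ax l w) z

section
variable {C : (ℂ → ℂ) → (ℂ → ℂ)} {A : ℝ}

/-- The properties of the solution operator for `R = 3`. -/
structure Cau (C : (ℂ → ℂ) → (ℂ → ℂ)) (A : ℝ) : Prop where
  nonneg : 0 ≤ A
  diff : ∀ g : ℂ → ℂ, ContDiff ℝ 1 g → (∀ z, 3 < ‖z‖ → g z = 0) → ∀ M : ℝ, (∀ z, ‖g z‖ ≤ M) →
    Differentiable ℝ (C g)
  dbar : ∀ g : ℂ → ℂ, ContDiff ℝ 1 g → (∀ z, 3 < ‖z‖ → g z = 0) → ∀ M : ℝ, (∀ z, ‖g z‖ ≤ M) →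
    ∀ z, dbar (C g) z = g z
  bound : ∀ g : ℂ → ℂ, ContDiff ℝ 1 g → (∀ z, 3 < ‖z‖ → g z = 0) → ∀ M : ℝ, (∀ z, ‖g z‖ ≤ M) →
    ∀ z, ‖C g z‖ ≤ A * M
  sub : ∀ g g' : ℂ → ℂ, ContDiff ℝ 1 g → ContDiff ℝ 1 g' → (∀ z, 3 < ‖z‖ → g z = 0) →
      (∀ z, 3 < ‖z‖ → g' z = 0) → ∀ z, C (fun w => g w - g' w) z = C g z - C g' z

theorem exists_cau (h : T_cau) : ∃ (C : (ℂ → ℂ) → (ℂ → ℂ)) (A : ℝ), Cau C A := by
  obtain ⟨C, hC⟩ := h
  obtain ⟨A, hA, h1, h2⟩ := hC 3 (by norm_num)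
  exact ⟨C, A, hA, fun g a b M c => (h1 g M a b c).1, fun g a b M c => (h1 g M a b c).2.1,
    fun g a b M c => (h1 g M a b c).2.2, h2⟩

/-- everything about the product `dbar m * β` -/
theorem Th_main (hC : Cau C A) {F m : ℝ → ℂ → ℂ} (h : St F m) {β : ℝ → ℝ} (hβ : ContDiff ℝ ∞ β)
    (hp : Function.Periodic β 1) (ax : Bool) :
    ∃ K : ℝ, 0 ≤ K ∧ ∀ l : ℝ, 0 < l →
      (∀ τ z, ‖Th C m β ax l τ z‖ ≤ K) ∧
      (∀ τ τ' z, ‖Th C m β ax l τ z - Th C m β ax l τ' z‖ ≤ K * |τ - τ'|) ∧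
      (∀ τ, Differentiable ℝ (Th C m β ax l τ)) ∧
      (∀ τ z, (kap ax * l) * dbar (Th C m β ax l τ) z = m τ z * ((deriv β (P ax z / l) : ℝ) : ℂ)) ∧
      (∀ τ z, Th C m β ax l (τ + 1) z = Th C m β ax l τ z) := by
  obtain ⟨Km, hKm, hm0, hm1⟩ := lip_of_periodic (fun q : ℝ × ℂ => m q.1 q.2) h.smooth h.mper h.supp
  have hDper : ∀ τ z, D (fun q : ℝ × ℂ => m q.1 q.2) (τ + 1, z) =
      D (fun q : ℝ × ℂ => m q.1 q.2) (τ, z) := by
    intro τ z
    rw [← dbar_slice h.smooth, ← dbar_slice h.smooth]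
    have : m (τ + 1) = m τ := funext (h.mper τ)
    rw [this]
  have hDsupp : ∀ τ z, 3 < ‖z‖ → D (fun q : ℝ × ℂ => m q.1 q.2) (τ, z) = 0 := by
    intro τ z hz
    rw [← dbar_slice h.smooth]
    have : m τ =ᶠ[𝓝 z] fun _ => 0 := by
      have ho : IsOpen {q : ℂ | 3 < ‖q‖} := isOpen_lt continuous_const continuous_norm
      filter_upwards [ho.mem_nhds (show z ∈ {q : ℂ | 3 < ‖q‖} from hz)] with q hq
      exact h.supp τ q hq
    unfold dbar
    rw [this.fderiv_eq]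
    simp
  obtain ⟨Kd, hKd, hd0, hd1⟩ := lip_of_periodic (D (fun q : ℝ × ℂ => m q.1 q.2))
    (contDiff_D h.smooth) hDper hDsupp
  obtain ⟨Kb, hKb, hb⟩ := bounded_of_periodic_real one_ne_zero β hβ.continuous hp
  have hbet : ∀ l z, ‖bet β ax l z‖ ≤ Kb := by
    intro l z
    unfold bet
    rw [Complex.norm_real]
    exact hb _
  have hA := hC.nonneg
  have hmd : ∀ τ, ContDiff ℝ ∞ (m τ) := fun τ =>
    h.smooth.comp (contDiff_const.prodMk contDiff_id)
  have hgd : ∀ l τ, ContDiff ℝ ∞ (fun w => dbar (m τ) w * bet β ax l w) := by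
    intro l τ
    have h1 : ContDiff ℝ ∞ (fun w => dbar (m τ) w) := by
      have : (fun w => dbar (m τ) w) = fun w => D (fun q : ℝ × ℂ => m q.1 q.2) (τ, w) :=
        funext fun w => dbar_slice h.smooth τ w
      rw [this]
      exact (contDiff_D h.smooth).comp (contDiff_const.prodMk contDiff_id)
    exact h1.mul (contDiff_bet hβ ax l)
  have hgs : ∀ l τ z, 3 < ‖z‖ → dbar (m τ) z * bet β ax l z = 0 := by
    intro l τ z hz
    rw [dbar_slice h.smooth, hDsupp τ z hz, zero_mul]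
  have hgb : ∀ l τ z, ‖dbar (m τ) z * bet β ax l z‖ ≤ Kd * Kb := by
    intro l τ z
    rw [norm_mul, dbar_slice h.smooth]
    exact mul_le_mul (hd0 _) (hbet l z) (norm_nonneg _) hKd
  have h1le : (1 : WithTop ℕ∞) ≤ (∞ : WithTop ℕ∞) := by simp
  refine ⟨Km * Kb + A * (Kd * Kb), by positivity, fun l hl => ⟨?_, ?_, ?_, ?_, ?_⟩⟩
  · intro τ z
    unfold Th
    refine (norm_sub_le _ _).trans (add_le_add ?_ ?_)
    · rw [norm_mul]
      exact mul_le_mul (hm0 (τ, z)) (hbet l z) (norm_nonneg _) hKm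
    · exact hC.bound _ ((hgd l τ).of_le h1le) (hgs l τ) _ (hgb l τ) z
  · intro τ τ' z
    have e : Th C m β ax l τ z - Th C m β ax l τ' z = (m τ z - m τ' z) * bet β ax l z -
        C (fun w => dbar (m τ) w * bet β ax l w - dbar (m τ') w * bet β ax l w) z := by
      rw [hC.sub _ _ ((hgd l τ).of_le h1le) ((hgd l τ').of_le h1le) (hgs l τ) (hgs l τ')]
      unfold Th
      ring
    rw [e, add_mul]
    refine (norm_sub_le _ _).trans (add_le_add ?_ ?_)
    · rw [norm_mul]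
      calc ‖m τ z - m τ' z‖ * ‖bet β ax l z‖ ≤ (Km * |τ - τ'|) * Kb :=
            mul_le_mul (hm1 τ τ' z) (hbet l z) (norm_nonneg _) (by positivity)
        _ = Km * Kb * |τ - τ'| := by ring
    · have := hC.bound (fun w => dbar (m τ) w * bet β ax l w - dbar (m τ') w * bet β ax l w)
        (((hgd l τ).sub (hgd l τ')).of_le h1le)
        (fun w hw => by rw [hgs l τ w hw, hgs l τ' w hw, sub_zero]) (Kd * |τ - τ'| * Kb)
        (fun w => by
          rw [← sub_mul, norm_mul, dbar_slice h.smooth, dbar_slice h.smooth]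
          exact mul_le_mul (hd1 τ τ' w) (hbet l w) (norm_nonneg _) (by positivity)) z
      refine this.trans (le_of_eq (by ring))
  · intro τ
    unfold Th
    exact (((hmd τ).differentiable (by simp)).mul ((contDiff_bet hβ ax l).differentiable (by simp))).sub
      (hC.diff _ ((hgd l τ).of_le h1le) (hgs l τ) _ (hgb l τ))
  · intro τ z
    have e1 : DifferentiableAt ℝ (m τ) z := ((hmd τ).differentiable (by simp)) z
    have e2 : DifferentiableAt ℝ (bet β ax l) z := ((contDiff_bet hβ ax l).differentiable (by simp)) z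
    have e3 : DifferentiableAt ℝ (C (fun w => dbar (m τ) w * bet β ax l w)) z :=
      (hC.diff _ ((hgd l τ).of_le h1le) (hgs l τ) _ (hgb l τ)) z
    have e4 := hC.dbar _ ((hgd l τ).of_le h1le) (hgs l τ) _ (hgb l τ) z
    have e5 : dbar (Th C m β ax l τ) z =
        (dbar (m τ) z * bet β ax l z + m τ z * dbar (bet β ax l) z) -
          dbar (m τ) z * bet β ax l z := by
      unfold Th
      rw [dbar_sub (u := fun w => m τ w * bet β ax l w) (e1.mul e2) e3, dbar_mul e1 e2, e4]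
    rw [e5, add_sub_cancel_left, mul_left_comm, dbar_bet hβ ax hl]
  · intro τ z
    unfold Th
    have : m (τ + 1) = m τ := funext (h.mper τ)
    rw [this]

end

/-- `a j (2 N τ)` times the correction. -/
noncomputable def Q (C : (ℂ → ℂ) → (ℂ → ℂ)) (m : ℝ → ℂ → ℂ) (a β : ℝ → ℝ) (ax : Bool) (N : ℕ)
    (l : ℝ) (τ : ℝ) (z : ℂ) : ℂ :=
  ((a (2 * N * τ) : ℝ) : ℂ) * ((kap ax * l) * Th C m β ax l τ z)

theorem Q_main {C : (ℂ → ℂ) → (ℂ → ℂ)} {A : ℝ} (hC : Cau C A) {F m : ℝ → ℂ → ℂ} (h : St F m)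
    {a β : ℝ → ℝ} (ha : ContDiff ℝ ∞ a) (hap : Function.Periodic a 2)
    (hβ : ContDiff ℝ ∞ β) (hp : Function.Periodic β 1) (ax : Bool) (N : ℕ) :
    ∃ B : ℝ, 0 ≤ B ∧ ∀ l : ℝ, 0 < l →
      (∀ τ z, ‖Q C m a β ax N l τ z‖ ≤ B * l) ∧
      (∀ τ τ' z, ‖Q C m a β ax N l τ z - Q C m a β ax N l τ' z‖ ≤ B * l * |τ - τ'|) ∧
      (∀ τ, Differentiable ℝ (Q C m a β ax N l τ)) ∧
      (∀ τ z, dbar (Q C m a β ax N l τ) z =
        m τ z * (((a (2 * N * τ) : ℝ) : ℂ) * ((deriv β (P ax z / l) : ℝ) : ℂ))) ∧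
      (∀ τ z, Q C m a β ax N l (τ + 1) z = Q C m a β ax N l τ z) := by
  obtain ⟨K, hK, hT⟩ := Th_main hC h hβ hp ax
  obtain ⟨La, hLa, ha0, ha1⟩ := lip_of_periodic_real two_ne_zero a ha hap
  refine ⟨La * K * 2 * (2 * N + 1), by positivity, fun l hl => ?_⟩
  obtain ⟨t1, t2, t3, t4, t5⟩ := hT l hl
  have hkl : ‖kap ax * l‖ = 2 * l := by
    rw [norm_mul, norm_kap, Complex.norm_real, Real.norm_of_nonneg hl.le]
  refine ⟨?_, ?_, ?_, ?_, ?_⟩
  · intro τ z
    unfold Q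
    rw [norm_mul, norm_mul, hkl, Complex.norm_real]
    calc ‖a (2 * N * τ)‖ * (2 * l * ‖Th C m β ax l τ z‖) ≤ La * (2 * l * K) :=
          mul_le_mul (ha0 _) (mul_le_mul_of_nonneg_left (t1 τ z) (by positivity)) (by positivity) hLa
      _ = La * K * 2 * l := by ring
      _ ≤ La * K * 2 * (2 * N + 1) * l := by
          have : La * K * 2 * l * 1 ≤ La * K * 2 * l * (2 * N + 1) :=
            mul_le_mul_of_nonneg_left (by linarith [show (0:ℝ) ≤ N from by positivity]) (by positivity)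
          linarith
  · intro τ τ' z
    have e : Q C m a β ax N l τ z - Q C m a β ax N l τ' z =
        (kap ax * l) * ((((a (2 * N * τ) - a (2 * N * τ') : ℝ) : ℂ)) * Th C m β ax l τ z +
          ((a (2 * N * τ') : ℝ) : ℂ) * (Th C m β ax l τ z - Th C m β ax l τ' z)) := by
      unfold Q
      push_cast
      ring
    rw [e, norm_mul, hkl]
    have e1 : ‖(((a (2 * N * τ) - a (2 * N * τ') : ℝ) : ℂ)) * Th C m β ax l τ z‖ ≤
        (La * (2 * N * |τ - τ'|)) * K := by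
      rw [norm_mul, Complex.norm_real]
      refine mul_le_mul ((ha1 _ _).trans (le_of_eq ?_)) (t1 τ z) (norm_nonneg _) (by positivity)
      rw [← mul_sub, abs_mul, abs_of_nonneg (show (0:ℝ) ≤ 2 * N by positivity)]
    have e2 : ‖((a (2 * N * τ') : ℝ) : ℂ) * (Th C m β ax l τ z - Th C m β ax l τ' z)‖ ≤
        La * (K * |τ - τ'|) := by
      rw [norm_mul, Complex.norm_real]
      exact mul_le_mul (ha0 _) (t2 τ τ' z) (norm_nonneg _) hLa
    calc 2 * l * ‖_ + _‖ ≤ 2 * l * ((La * (2 * N * |τ - τ'|)) * K + La * (K * |τ - τ'|)) :=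
          mul_le_mul_of_nonneg_left ((norm_add_le _ _).trans (add_le_add e1 e2)) (by positivity)
      _ = La * K * 2 * (2 * N + 1) * l * |τ - τ'| := by ring
  · intro τ
    unfold Q
    exact ((t3 τ).const_mul _).const_mul _
  · intro τ z
    have := t4 τ z
    unfold Q
    rw [dbar_const_mul _ (((t3 τ) z).const_mul _), dbar_const_mul _ ((t3 τ) z), this]
    ring
  · intro τ z
    unfold Q
    rw [t5 τ z]
    have h2 : a (2 * N * (τ + 1)) = a (2 * N * τ) := by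
      have := (hap.nat_mul N) (2 * N * τ)
      rw [← this]
      congr 1
      ring
    rw [h2]

theorem step (hcau : T_cau) (hper : T_per) : T_step := by
  intro F m h ax N hN η hη
  obtain ⟨C, A, hC⟩ := exists_cau hcau
  obtain ⟨a, β, ha, hβ, hap, hβp, hsum, haf, hat, hbf, hbt⟩ := hper
  obtain ⟨B₀, hB₀, q₀⟩ := Q_main hC h (ha false) (hap false) (hβ false) (hβp false) ax N
  obtain ⟨B₁, hB₁, q₁⟩ := Q_main hC h (ha true) (hap true) (hβ true) (hβp true) ax N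
  set l : ℝ := min η (η / (B₀ + B₁ + 1)) with hl
  have hlpos : 0 < l := lt_min hη (by positivity)
  have hlB : B₀ * l + B₁ * l ≤ η := by
    have h1 : l ≤ η / (B₀ + B₁ + 1) := min_le_right _ _
    have h2 : (B₀ + B₁ + 1) * l ≤ η := by
      rw [le_div_iff₀ (by positivity)] at h1
      linarith
    nlinarith
  obtain ⟨f1, f2, f3, f4, f5⟩ := q₀ l hlpos
  obtain ⟨g1, g2, g3, g4, g5⟩ := q₁ l hlpos
  have hderiv : ∀ j, ContDiff ℝ ∞ (deriv (β j)) := fun j => (contDiff_infty_iff_deriv.1 (hβ j)).2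
  -- the correction
  set Ψ : ℝ → ℂ → ℂ := fun τ z => Q C m (a false) (β false) ax N l τ z +
    Q C m (a true) (β true) ax N l τ z with hΨ
  have hΨ1 : ∀ τ z, ‖Ψ τ z‖ ≤ η := fun τ z =>
    ((norm_add_le _ _).trans (add_le_add (f1 τ z) (g1 τ z))).trans hlB
  have hΨ2 : ∀ τ τ' z, ‖Ψ τ z - Ψ τ' z‖ ≤ η * |τ - τ'| := by
    intro τ τ' z
    have e : Ψ τ z - Ψ τ' z = (Q C m (a false) (β false) ax N l τ z -
      Q C m (a false) (β false) ax N l τ' z) + (Q C m (a true) (β true) ax N l τ z -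
      Q C m (a true) (β true) ax N l τ' z) := by simp only [hΨ]; ring
    rw [e]
    refine ((norm_add_le _ _).trans (add_le_add (f2 τ τ' z) (g2 τ τ' z))).trans ?_
    rw [← add_mul]
    exact mul_le_mul_of_nonneg_right hlB (abs_nonneg _)
  have hΨ3 : ∀ τ, Differentiable ℝ (Ψ τ) := fun τ => (f3 τ).add (g3 τ)
  have hΨc : Continuous (fun q : ℝ × ℂ => Ψ q.1 q.2) := by
    refine continuous_prod_of_continuous_lipschitzWith (fun q : ℝ × ℂ => Ψ q.1 q.2)
      (Real.toNNReal η) ?_ ?_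
    · intro τ
      exact (hΨ3 τ).continuous
    · intro z
      refine LipschitzWith.of_dist_le_mul fun τ τ' => ?_
      rw [dist_eq_norm, Real.dist_eq, Real.coe_toNNReal _ hη.le]
      exact hΨ2 τ τ' z
  refine ⟨l, hlpos, min_le_left _ _, fun τ z => F τ z + Ψ τ z,
    fun τ z => m τ z * (((a false (2 * N * τ) * (1 + deriv (β false) (P ax z / l)) : ℝ) : ℂ) +
      ((a true (2 * N * τ) * (1 + deriv (β true) (P ax z / l)) : ℝ) : ℂ)), ?_, ?_, ?_, ?_⟩
  · refine ⟨h.cont.add hΨc, ?_, ?_, ?_, ?_, ?_, ?_⟩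
    · intro τ z
      simp only [hΨ, f5, g5, h.per]
      ring
    · intro τ
      exact (h.diff τ).add (hΨ3 τ)
    · intro τ z
      have e1 : dbar (Ψ τ) z = m τ z * (((a false (2 * N * τ) : ℝ) : ℂ) *
          ((deriv (β false) (P ax z / l) : ℝ) : ℂ)) + m τ z * (((a true (2 * N * τ) : ℝ) : ℂ) *
          ((deriv (β true) (P ax z / l) : ℝ) : ℂ)) := by
        rw [← f4, ← g4, ← dbar_add ((f3 τ) z) ((g3 τ) z)]
      rw [dbar_add ((h.diff τ) z) ((hΨ3 τ) z), h.db, e1]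
      have e2 : ((a false (2 * N * τ) : ℝ) : ℂ) + ((a true (2 * N * τ) : ℝ) : ℂ) = 1 := by
        exact_mod_cast hsum (2 * N * τ)
      push_cast
      linear_combination (-m τ z) * e2
    · have hq : ContDiff ℝ ∞ (fun q : ℝ × ℂ => 2 * (N : ℝ) * q.1) := contDiff_const.mul contDiff_fst
      have hz : ContDiff ℝ ∞ (fun q : ℝ × ℂ => P ax q.2 / l) :=
        ((P ax).contDiff.comp contDiff_snd).div_const l
      have hj : ∀ j, ContDiff ℝ ∞ (fun q : ℝ × ℂ =>
          ((a j (2 * N * q.1) * (1 + deriv (β j) (P ax q.2 / l)) : ℝ) : ℂ)) := fun j =>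
        Complex.ofRealCLM.contDiff.comp
          (((ha j).comp hq).mul (contDiff_const.add ((hderiv j).comp hz)))
      exact h.smooth.mul ((hj false).add (hj true))
    · intro τ z
      have hj : ∀ j, a j (2 * N * (τ + 1)) = a j (2 * N * τ) := by
        intro j
        have hpj : Function.Periodic (a j) 2 := hap j
        have := (hpj.nat_mul N) (2 * N * τ)
        rw [← this]
        congr 1
        ring
      simp only [hj, h.mper]
    · intro τ z hz
      simp only [h.supp τ z hz, zero_mul]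
  · intro τ z
    simpa using hΨ1 τ z
  · intro τ τ' z
    simpa using hΨ2 τ τ' z
  · intro τ z hne
    have hm : m τ z ≠ 0 := left_ne_zero_of_mul hne
    refine ⟨hm, ?_⟩
    have hs := right_ne_zero_of_mul hne
    rw [← P_apply]
    by_cases h0 : a false (2 * N * τ) * (1 + deriv (β false) (P ax z / l)) = 0
    · have h1 : a true (2 * N * τ) * (1 + deriv (β true) (P ax z / l)) ≠ 0 := by
        intro h1
        apply hs
        rw [h0, h1]
        simp
      right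
      refine ⟨?_, hbt _ (right_ne_zero_of_mul h1)⟩
      have := hat _ (left_ne_zero_of_mul h1)
      rw [show 2 * Real.pi * N * τ = Real.pi * (2 * N * τ) by ring]
      exact this
    · left
      refine ⟨?_, hbf _ (right_ne_zero_of_mul h0)⟩
      have := haf _ (left_ne_zero_of_mul h0)
      rw [show 2 * Real.pi * N * τ = Real.pi * (2 * N * τ) by ring]
      exact this

end Pool.Agent.H16.CS
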