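import Pool.Agent.H16.CS.Defs

/-!
# Targets
-/

set_option autoImplicit false

open Polynomial

namespace Pool.Agent.H16.CS

/-- power sums of a multiset -/
noncomputable def psm {Ω : Type} [Field Ω] (A : Multiset Ω) (n : ℕ) : Ω := (A.map fun x => x ^ n).sum

/-- the eigenvalues of `f` in the algebraically closed field `Ω`, with multiplicities -/
noncomputable def eig {K : Type} [Field K] (Ω : Type) [Field Ω] [Algebra K Ω] {V : Type} [AddCommGroup V]
    [Module K V] [FiniteDimensional K V] (f : Module.End K V) : Multiset Ω :=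
  (f.charpoly.map (algebraMap K Ω)).roots

/-- TRP: the trace of a power. -/
def T_TRP : Prop := ∀ (K Ω : Type) [Field K] [Field Ω] [IsAlgClosed Ω] [Algebra K Ω] (V : Type)
  [AddCommGroup V] [Module K V] [FiniteDimensional K V] (f : Module.End K V) (n : ℕ),
  algebraMap K Ω (LinearMap.trace K V (f ^ n)) = psm (eig Ω f) n

/-- NIL: an endomorphism with the only eigenvalue `c`. -/
def T_NIL : Prop := ∀ (K Ω : Type) [Field K] [Field Ω] [IsAlgClosed Ω] [Algebra K Ω] (V : Type)
  [AddCommGroup V] [Module K V] [FiniteDimensional K V] (f : Module.End K V) (c : K),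
  (∀ x ∈ eig Ω f, x = algebraMap K Ω c) →
  (f - algebraMap K (Module.End K V) c) ^ Module.finrank K V = 0

/-- MUA: maximal intersection numbers. -/
def T_MUA : Prop := ∀ (Ω : Type) [Field Ω] [CharZero Ω] (A B : Multiset Ω),
  (∀ n : ℕ, 1 ≤ n → n ≤ A.card + B.card + 1 → psm A n = psm B n + A.card) →
  (∀ x ∈ A, x = 1) ∧ ∀ x ∈ B, x = 0

/-- MUB: the bounds. -/
def T_MUB : Prop := ∀ (Ω : Type) [Field Ω] [CharZero Ω] (A B : Multiset Ω) (c : ℚ),
  (∀ n : ℕ, 1 ≤ n → psm A n - psm B n = (c : Ω)) → -(B.card : ℚ) ≤ c ∧ c ≤ A.card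

/-- RAT: rationality of both parts. -/
def T_RAT : Prop := ∀ (Ω : Type) [Field Ω] [CharZero Ω] (A B : Multiset Ω) (p : ℕ → ℚ),
  (∀ x ∈ A, x ∉ B) → (∀ n : ℕ, 1 ≤ n → psm A n - psm B n = (p n : Ω)) →
  ∃ P Q : ℚ[X], P.map (algebraMap ℚ Ω) = (A.map fun x => X - C x).prod ∧
    Q.map (algebraMap ℚ Ω) = (B.map fun x => X - C x).prod

/-- DEN: a rational combination with coprime characteristic polynomials. -/
def T_DEN : Prop := ∀ (K : Type) [Field K] [CharZero K] (ι κ : Type) [Fintype ι] [Fintype κ]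
  (H : ι → Type) [∀ i, AddCommGroup (H i)] [∀ i, Module K (H i)] [∀ i, FiniteDimensional K (H i)]
  (S : ι → Prop) [DecidablePred S] (F : κ → ∀ i, Module.End K (H i)) (c : κ → K),
  (∀ i, ∑ k, c k • F k i = if S i then 1 else 0) →
  ∃ q : κ → ℚ, ∀ i j, S i → ¬ S j →
    IsCoprime (∑ k, (q k : K) • F k i).charpoly (∑ k, (q k : K) • F k j).charpoly

/-- GOO: if all stable subspaces split then the projector is a combination. -/
def T_GOO : Prop := ∀ (K : Type) [Field K] (ι : Type) [Fintype ι] (H : ι → Type)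
  [∀ i, AddCommGroup (H i)] [∀ i, Module K (H i)] [∀ i, FiniteDimensional K (H i)]
  (S : ι → Prop) [DecidablePred S] (R : Type) [Ring R] (act : R →+* ∀ i, Module.End K (H i)),
  (∀ W : Submodule K (∀ i, H i), (∀ f : R, ∀ x ∈ W, (fun i => act f i (x i)) ∈ W) →
    ∀ x ∈ W, (fun i => if S i then x i else 0) ∈ W) →
  (fun i => if S i then (1 : Module.End K (H i)) else 0) ∈ Submodule.span K (Set.range act)

/-- COP: a correspondence with coprime characteristic polynomials gives a rational cycle. -/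
def T_COP : Prop := ∀ (R : Type) [Ring R] [Algebra ℚ R] (num : R →ₗ[ℚ] ℚ) (d : ℕ) (K : Type) [Field K]
  [CharZero K] (ρ : Realisation R num d K) (f : R), IsCoprime (ρ.chE f) (ρ.chO f) → ρ.Cplus

end Pool.Agent.H16.CS
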